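import Pool.Agent.Y986.GL.Card
import Pool.Agent.W381.GL.FLOW

/-!
A minimal closed invariant set of ultrafilters on the integers contains `2 ^ (2 ^ ℵ₀)` points in
different orbits.
-/

set_option autoImplicit false

open Set Filter Topology Cardinal

namespace Pool.Agent.Y986.GL

open Pool.Agent.W744.GL Pool.Agent.W381.GL.FLOW

/-- residue of an ultrafilter modulo `2 ^ s` -/
theorem exists_res (U : Ultrafilter ℤ) (s : ℕ) : ∃ b : ℤ, {a : ℤ | (2 : ℤ) ^ s ∣ a - b} ∈ U := by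
  have hNZ : NeZero (2 ^ s) := ⟨by positivity⟩
  obtain ⟨u, hu⟩ := Ultrafilter.eq_pure_of_finite (U.map fun a : ℤ => (a : ZMod (2 ^ s)))
  have hA : {a : ℤ | (a : ZMod (2 ^ s)) = u} ∈ U := by
    have h1 : {u} ∈ U.map fun a : ℤ => (a : ZMod (2 ^ s)) := by
      rw [hu, Ultrafilter.mem_pure]
      exact rfl
    exact h1
  obtain ⟨b, hb⟩ := U.nonempty_of_mem hA
  refine ⟨b, ?_⟩
  filter_upwards [hA] with a ha
  have h1 : (b : ZMod (2 ^ s)) = (a : ZMod (2 ^ s)) := by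
    rw [show (a : ZMod (2 ^ s)) = u from ha, show (b : ZMod (2 ^ s)) = u from hb]
  have h2 := (ZMod.intCast_eq_intCast_iff_dvd_sub b a (2 ^ s)).1 h1
  exact_mod_cast h2

/-- The limits of the points `U + 2 ^ n`. -/
def Phi (U : Ultrafilter ℤ) (q : Ultrafilter ℕ) : Ultrafilter ℤ :=
  Ultrafilter.bind q fun n => sh U (2 ^ n)

theorem mem_Phi {U : Ultrafilter ℤ} {q : Ultrafilter ℕ} {A : Set ℤ} :
    A ∈ Phi U q ↔ {n : ℕ | A ∈ sh U (2 ^ n)} ∈ q := Iff.rfl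

theorem Phi_mem {U : Ultrafilter ℤ} {Y : Set (Ultrafilter ℤ)} (hY : IsClosed Y)
    (hU : ∀ k : ℤ, sh U k ∈ Y) (q : Ultrafilter ℕ) : Phi U q ∈ Y := by
  rw [← hY.closure_eq, ultrafilterBasis_is_basis.mem_closure_iff]
  rintro _ ⟨A, rfl⟩ hA
  have h1 : {n : ℕ | A ∈ sh U (2 ^ n)} ∈ q := hA
  obtain ⟨n, hn⟩ := q.nonempty_of_mem h1
  exact ⟨sh U (2 ^ n), hn, hU _⟩

theorem Phi_inj (U : Ultrafilter ℤ) : Function.Injective (Phi U) := by
  choose b hb using exists_res U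
  intro q q' h
  by_contra hne
  obtain ⟨A, hA⟩ : ∃ A : ℕ → Set ℤ, A = fun n => {a : ℤ | (2 : ℤ) ^ (n + 1) ∣ a - b (n + 1) - 2 ^ n} :=
    ⟨_, rfl⟩
  have hAm : ∀ n, A n ∈ sh U (2 ^ n) := by
    intro n
    rw [mem_sh]
    filter_upwards [hb (n + 1)] with a ha
    rw [hA]
    show (2 : ℤ) ^ (n + 1) ∣ a + 2 ^ n - b (n + 1) - 2 ^ n
    have : a + 2 ^ n - b (n + 1) - 2 ^ n = a - b (n + 1) := by ring
    rw [this]
    exact ha
  have hdis : ∀ n m, n < m → ∀ a, a ∈ A n → a ∉ A m := by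
    intro n m hnm a h1 h2
    rw [hA] at h1 h2
    change (2 : ℤ) ^ (n + 1) ∣ a - b (n + 1) - 2 ^ n at h1
    change (2 : ℤ) ^ (m + 1) ∣ a - b (m + 1) - 2 ^ m at h2
    obtain ⟨c, hc1, hc2⟩ := U.nonempty_of_mem (inter_mem (hb (n + 1)) (hb (m + 1)))
    change (2 : ℤ) ^ (n + 1) ∣ c - b (n + 1) at hc1
    change (2 : ℤ) ^ (m + 1) ∣ c - b (m + 1) at hc2
    have d1 : (2 : ℤ) ^ (n + 1) ∣ (2 : ℤ) ^ (m + 1) := pow_dvd_pow 2 (by omega)
    have d2 : (2 : ℤ) ^ (n + 1) ∣ (2 : ℤ) ^ m := pow_dvd_pow 2 (by omega)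
    have h3 : (2 : ℤ) ^ (n + 1) ∣ (2 : ℤ) ^ n := by
      have e : (2 : ℤ) ^ n = (a - b (m + 1) - 2 ^ m) - (c - b (m + 1)) + (c - b (n + 1)) -
        (a - b (n + 1) - 2 ^ n) + 2 ^ m := by ring
      rw [e]
      exact dvd_add (dvd_sub (dvd_add (dvd_sub (d1.trans h2) (d1.trans hc2)) hc1) h1) d2
    have h4 := Int.le_of_dvd (by positivity) h3
    have h5 : (2 : ℤ) ^ n < 2 ^ (n + 1) := pow_lt_pow_right₀ (by norm_num) (by omega)
    omega
  have hdis' : ∀ n m, n ≠ m → ∀ a, a ∈ A n → a ∉ A m := by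
    intro n m hnm a h1 h2
    rcases lt_or_gt_of_ne hnm with h | h
    · exact hdis n m h a h1 h2
    · exact hdis m n h a h2 h1
  have key : ∀ (q : Ultrafilter ℕ) (S : Set ℕ), (⋃ n ∈ S, A n) ∈ Phi U q ↔ S ∈ q := by
    intro q S
    rw [mem_Phi]
    have : {n : ℕ | (⋃ n ∈ S, A n) ∈ sh U (2 ^ n)} = S := by
      ext n
      constructor
      · intro h1
        by_contra hn
        obtain ⟨a, ha1, ha2⟩ := (sh U (2 ^ n)).nonempty_of_mem (inter_mem h1 (hAm n))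
        rw [mem_iUnion₂] at ha1
        obtain ⟨m, hm, ham⟩ := ha1
        exact hdis' m n (by rintro rfl; exact hn hm) a ham ha2
      · intro hn
        have h0 : A n ⊆ ⋃ n ∈ S, A n := subset_biUnion_of_mem (u := A) hn
        exact Ultrafilter.mem_coe.1 (Filter.mem_of_superset (Ultrafilter.mem_coe.2 (hAm n))
          (preimage_mono h0))
    rw [this]
  apply hne
  refine Ultrafilter.ext fun S => ?_
  rw [← key q S, ← key q' S, h]

theorem NP_ge (q : NP) (s : ℕ) : {n : ℕ | s ≤ n} ∈ q.1 := by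
  induction s with
  | zero =>
    have : {n : ℕ | 0 ≤ n} = Set.univ := by
      ext n
      simp
    rw [this]
    exact Filter.univ_mem
  | succ s ih =>
    filter_upwards [ih, q.2 s] with n h1 h2
    have h3 : s ≤ n := h1
    have h4 : n ≠ s := h2
    show s + 1 ≤ n
    omega

theorem Phi_orbit (U : Ultrafilter ℤ) (q q' : NP) (hne : q ≠ q') (k : ℤ) :
    Phi U q'.1 ≠ sh (Phi U q.1) k := by
  intro h
  choose b hb using exists_res U
  have hres : ∀ (q : NP) (s : ℕ), {a : ℤ | (2 : ℤ) ^ s ∣ a - b s} ∈ Phi U q.1 := by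
    intro q s
    rw [mem_Phi]
    filter_upwards [NP_ge q s] with n hn
    show _ ∈ sh U (2 ^ n)
    rw [mem_sh]
    filter_upwards [hb s] with a ha
    show (2 : ℤ) ^ s ∣ a + 2 ^ n - b s
    have e : a + 2 ^ n - b s = (a - b s) + 2 ^ n := by ring
    rw [e]
    exact dvd_add ha (pow_dvd_pow 2 hn)
  have hk : ∀ s : ℕ, (2 : ℤ) ^ s ∣ k := by
    intro s
    have h1 := hres q' s
    rw [h, mem_sh] at h1
    obtain ⟨a, ha1, ha2⟩ := (Phi U q.1).nonempty_of_mem (inter_mem h1 (hres q s))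
    change (2 : ℤ) ^ s ∣ a + k - b s at ha1
    change (2 : ℤ) ^ s ∣ a - b s at ha2
    have e : k = (a + k - b s) - (a - b s) := by ring
    rw [e]
    exact dvd_sub ha1 ha2
  have hk0 : k = 0 := by
    by_contra hk0
    have h1 : (2 ^ k.natAbs : ℕ) ∣ k.natAbs := by
      have := Int.natAbs_dvd_natAbs.2 (hk k.natAbs)
      rwa [Int.natAbs_pow] at this
    have h2 := Nat.le_of_dvd (Int.natAbs_pos.2 hk0) h1
    exact absurd h2 (not_le.2 Nat.lt_two_pow_self)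
  rw [hk0, sh_zero] at h
  exact hne (Subtype.ext (Phi_inj U h).symm)

/-- There are `2 ^ (2 ^ ℵ₀)` ultrafilters on the integers, in different orbits, each of which is in
the closure of the orbit of each other one. -/
theorem flow2 : ∃ Φ : NP → Ultrafilter ℤ,
    (∀ i j, Φ j ∈ closure (range (sh (Φ i)))) ∧ ∀ i j, i ≠ j → ∀ k : ℤ, Φ j ≠ sh (Φ i) k := by
  obtain ⟨Y, hY, hmin⟩ := exists_min
  obtain ⟨hYc, ⟨U, hU⟩, hYi⟩ := hY
  have hsub : ∀ V ∈ Y, closure (range (sh V)) ⊆ Y := fun V hV =>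
    closure_minimal (by rintro _ ⟨k, rfl⟩; exact hYi V hV k) hYc
  have hall : ∀ V ∈ Y, Y ⊆ closure (range (sh V)) := fun V hV =>
    hmin (orbit_mem V) (hsub V hV)
  refine ⟨fun q => Phi U q.1, fun i j => ?_, fun i j hij k => Phi_orbit U i j hij k⟩
  exact hall _ (Phi_mem hYc (hYi U hU) i.1) (Phi_mem hYc (hYi U hU) j.1)

end Pool.Agent.Y986.GL
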