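import Pool.Agent.W744.GL.Asm

/-!
One point with trivial Gleason part in the Shilov boundaries of all nontrivial parts of a family.
The proof of `base` is the one of `Pool.Agent.W744.GL.main`.
-/

set_option autoImplicit false

open Metric Set Filter Topology Complex
open scoped ComplexConjugate

namespace Pool.Agent.Y986.GL
open Pool.Agent.W744.GL
open Pool.Agent.Helper503.Gp
open Pool.Agent.Results.MP_264cca_an.TrivialPart

/-- The Shilov boundary of `H^∞|P` depends on the closure of `P` only. -/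
theorem shilov_sub {P Q : Set MaxSpace} (hc : CompactSpace MaxSpace)
    (h : closure P = closure Q) : shilov P ⊆ shilov Q := by
  intro m hm S hSb
  refine hm S ⟨by rw [h]; exact hSb.1, hSb.2.1, fun f z hz ε hε => ?_⟩
  have h1 : z ∈ closure Q := by rw [← h]; exact subset_closure hz
  obtain ⟨s, hs, hs2⟩ := bdry_max hSb hc f h1
  exact ⟨s, hs, by linarith⟩

theorem shilov_congr {P Q : Set MaxSpace} (hc : CompactSpace MaxSpace)
    (h : closure P = closure Q) : shilov P = shilov Q :=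
  Subset.antisymm (shilov_sub hc h) (shilov_sub hc h.symm)

theorem base (hU : S_ULCH) (hP : S_PART) (hL : S_UL2) (hT : S_TRIV) (hD : S_DISC)
    (hZ : S_ZORN) (U : Ultrafilter ℤ) :
    ∃ m : MaxSpace, part m = {m} ∧ m ∈ shilov (part (pp hU U I Iim)) := by
  have hcomp := compactMax hU
  have ht2 := t2Max
  set x := pp hU U I Iim with hx
  set K : Set MaxSpace := closure (part x) with hK
  have hxx : x ∈ part x := (rho_lt_iff _ _).2 (tv_gl_refl _)
  have hKc : IsCompact K := isClosed_closure.isCompact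
  have : CompactSpace K := isCompact_iff_compactSpace.1 hKc
  have : Nonempty K := ⟨⟨x, subset_closure hxx⟩⟩
  -- the discs
  let t₀ : Up := ⟨I, Iim⟩
  obtain ⟨m, hmS, hmD⟩ := hZ K (ReA K) (by
      rintro _ ⟨f, rfl⟩
      exact Complex.continuous_re.comp ((cont_ev f).comp continuous_subtype_val))
    (by
      intro a b hab
      have h1 : ∃ f : Hinf, (a : MaxSpace) f ≠ (b : MaxSpace) f := by
        by_contra hcon
        push Not at hcon
        exact hab (Subtype.ext (AlgHom.ext hcon))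
      obtain ⟨f, hf⟩ := h1
      by_cases hre : ((a : MaxSpace) f).re = ((b : MaxSpace) f).re
      · refine ⟨fun k : K => ((k : MaxSpace) ((-I) • f)).re, ⟨(-I) • f, rfl⟩, ?_⟩
        simp only [map_smul, smul_eq_mul]
        intro h2
        apply hf
        apply Complex.ext hre
        simpa using h2
      · exact ⟨fun k : K => ((k : MaxSpace) f).re, ⟨f, rfl⟩, hre⟩)
    {S : Set K | ∃ S' : Set MaxSpace, IsClosedBoundary (part x) S' ∧ S = {k : K | (k : MaxSpace) ∈ S'}}
    (by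
      rintro _ ⟨S', hS', rfl⟩
      refine ⟨hS'.2.1.preimage continuous_subtype_val, ?_⟩
      rintro _ ⟨f, rfl⟩
      obtain ⟨z, hz, hzm⟩ := bdry_re hS' hcomp ⟨x, hxx⟩ f
      exact ⟨⟨z, hS'.1 hz⟩, hz, fun k => hzm k k.2⟩)
    Up t₀
    {Λ : Up → K | ∃ W : Ultrafilter Up, ∀ ξ : Up, up (Λ ξ : MaxSpace) =
      ulim W (fun ζ : Up => lam U (mv ζ ξ))}
    (by
      rintro Λ ⟨W, hW⟩ _ ⟨f, rfl⟩ hle t
      have hb : (fun ζ : Up => lam U (mv ζ (t₀ : ℂ))) = fun ζ : Up => lam U ζ := by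
        funext ζ
        change lam U (mv ζ I) = _
        rw [mv_I]
      have h0 : ∀ s : Up, (Λ s : MaxSpace) f = ulim W (fun ζ : Up => lam U (mv ζ s)) (ex f) := by
        intro s
        rw [← hW s, up_ex]
      have h1 := hD U W (ex f) (ex_mem f) (by
        intro ξ hξ
        have h2 := hle ⟨ξ, hξ⟩
        change ((Λ ⟨ξ, hξ⟩ : MaxSpace) f).re ≤ ((Λ t₀ : MaxSpace) f).re at h2
        rw [h0, h0, hb] at h2
        exact h2) t t.2
      change ((Λ t : MaxSpace) f).re = ((Λ t₀ : MaxSpace) f).re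
      rw [h0, h0, hb]
      exact h1)
  -- the disc through m
  have hCl := (cl_iff hU hP U I Iim m).1 m.2
  obtain ⟨W, hW⟩ := (hL U).1 _ (up_char _) hCl
  have hdisc : ∀ ξ : Up, ∃ k : K, up (k : MaxSpace) = ulim W (fun ζ : Up => lam U (mv ζ ξ)) := by
    intro ξ
    have hc := ((hL U).2 W ξ ξ.2).1
    have h1 := ((hL U).2 W ξ ξ.2).2
    have h2 : dn _ hc ∈ closure (part x) := by
      rw [cl_iff hU hP U I Iim, up_dn]
      exact h1
    exact ⟨⟨dn _ hc, h2⟩, up_dn hc⟩
  choose Λ hΛ using hdisc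
  have h00 : Λ t₀ = m := by
    apply Subtype.ext
    apply up_inj
    rw [hΛ, hW]
    have hb : (fun ζ : Up => lam U (mv ζ (t₀ : ℂ))) = fun ζ : Up => lam U ζ := by
      funext ζ
      change lam U (mv ζ I) = _
      rw [mv_I]
    rw [hb]
  have hconst := hmD Λ ⟨W, hΛ⟩ h00
  have htriv := hT U W (up m) hW (by
    intro ξ hξ
    have h1 := hΛ ⟨ξ, hξ⟩
    rw [hconst ⟨ξ, hξ⟩] at h1
    exact h1.symm)
  refine ⟨m, ?_, ?_⟩
  · ext z
    rw [mem_singleton_iff]
    constructor
    · intro hz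
      have h1 := (rho_lt_iff _ _).1 hz
      exact up_inj (htriv _ (up_char z) h1)
    · rintro rfl
      exact (rho_lt_iff _ _).2 (tv_gl_refl _)
  · intro S hSb
    exact hmS _ ⟨S, hSb, rfl⟩

theorem main2 (hU : S_ULCH) (hG : S_G0) (hP : S_PART) (hS : S_SEP) (hC : S_CL)
    (hL : S_UL2) (hT : S_TRIV) (hD : S_DISC) (hZ : S_ZORN) {ι : Type} (i₀ : ι)
    (Φ : ι → Ultrafilter ℤ) (hcl : ∀ i j, Φ j ∈ closure (range (sh (Φ i))))
    (hne : ∀ i j, i ≠ j → ∀ k : ℤ, Φ j ≠ sh (Φ i) k) :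
    ∃ (m : MaxSpace) (x : ι → MaxSpace), part m = {m} ∧ (∀ i, part (x i) ≠ {x i}) ∧
      (∀ i j, i ≠ j → part (x i) ≠ part (x j)) ∧ (∀ i, m ∈ shilov (part (x i))) ∧
      (∀ i j, closure (part (x i)) = closure (part (x j))) ∧
      ∀ i j, shilov (part (x i)) = shilov (part (x j)) := by
  have hcomp := compactMax hU
  have hK : ∀ i j, closure (part (pp hU (Φ i) I Iim)) = closure (part (pp hU (Φ j) I Iim)) :=
    fun i j => Subset.antisymm (closure_sub hU hP hC (hcl j i)) (closure_sub hU hP hC (hcl i j))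
  obtain ⟨m, hm1, hm2⟩ := base hU hP hL hT hD hZ (Φ i₀)
  refine ⟨m, fun i => pp hU (Φ i) I Iim, hm1, fun i => nontriv hU hP hG (Φ i),
    fun i j hij => part_ne hU hS (hne i j hij), fun i => ?_, hK,
    fun i j => shilov_congr hcomp (hK i j)⟩
  exact shilov_sub hcomp (hK i₀ i) hm2

end Pool.Agent.Y986.GL
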