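import Mathlib

/-!
There are `2 ^ (2 ^ ℵ₀)` nonprincipal ultrafilters on the natural numbers (Pospíšil), by an
independent family of `2 ^ ℵ₀` subsets of a countable set.
-/

set_option autoImplicit false

open Set Filter Cardinal

namespace Pool.Agent.Y986.GL

open Classical in
theorem exists_code (S : Set (Set ℕ)) (T : Finset (Set ℕ)) :
    ∃ x : Finset ℕ × Finset (Finset ℕ), ∀ A ∈ T, (x.1.filter (· ∈ A) ∈ x.2 ↔ A ∈ S) := by
  have h : ∀ A B : Set ℕ, ∃ n : ℕ, A ≠ B → ¬ (n ∈ A ↔ n ∈ B) := by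
    intro A B
    by_cases hAB : A = B
    · exact ⟨0, fun h => absurd hAB h⟩
    · have : ∃ n, ¬ (n ∈ A ↔ n ∈ B) := by
        by_contra hc
        push Not at hc
        exact hAB (Set.ext hc)
      obtain ⟨n, hn⟩ := this
      exact ⟨n, fun _ => hn⟩
  choose n hn using h
  let F : Finset ℕ := (T ×ˢ T).image fun p => n p.1 p.2
  refine ⟨(F, (T.filter (· ∈ S)).image fun B => F.filter (· ∈ B)), fun A hA => ?_⟩
  constructor
  · intro h
    obtain ⟨B, hB, hBA⟩ := Finset.mem_image.1 h
    obtain ⟨hBT, hBS⟩ := Finset.mem_filter.1 hB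
    have : B = A := by
      by_contra hne
      have h1 : n B A ∈ F := Finset.mem_image.2 ⟨(B, A), Finset.mem_product.2 ⟨hBT, hA⟩, rfl⟩
      have h2 := hn B A hne
      apply h2
      have h3 : n B A ∈ F.filter (· ∈ B) ↔ n B A ∈ F.filter (· ∈ A) := by rw [hBA]
      rw [Finset.mem_filter, Finset.mem_filter] at h3
      tauto
    rwa [this] at hBS
  · intro h
    exact Finset.mem_image.2 ⟨A, Finset.mem_filter.2 ⟨hA, h⟩, rfl⟩

open Classical in
theorem exists_ult (S : Set (Set ℕ)) : ∃ q : Ultrafilter (Finset ℕ × Finset (Finset ℕ)),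
    ∀ A : Set ℕ, ({x : Finset ℕ × Finset (Finset ℕ) | x.1.filter (· ∈ A) ∈ x.2} ∈ q ↔ A ∈ S) := by
  choose x hx using exists_code S
  let q := Ultrafilter.of (Filter.map x Filter.atTop)
  have hq : (q : Filter _) ≤ Filter.map x Filter.atTop := Ultrafilter.of_le _
  have key : ∀ A : Set ℕ, {y : Finset ℕ × Finset (Finset ℕ) |
      (y.1.filter (· ∈ A) ∈ y.2 ↔ A ∈ S)} ∈ q := by
    intro A
    refine hq ?_
    rw [Filter.mem_map]
    filter_upwards [Filter.eventually_ge_atTop {A}] with T hT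
    exact hx T A (hT (Finset.mem_singleton_self A))
  refine ⟨q, fun A => ⟨fun h => ?_, fun h => ?_⟩⟩
  · obtain ⟨y, hy1, hy2⟩ := q.nonempty_of_mem (inter_mem h (key A))
    exact hy2.1 hy1
  · filter_upwards [key A] with y hy
    exact hy.2 h

theorem card_ult : (2 : Cardinal.{0}) ^ ((2 : Cardinal.{0}) ^ ℵ₀) ≤ #(Ultrafilter ℕ) := by
  classical
  choose q hq using exists_ult
  obtain ⟨e⟩ : Nonempty (Finset ℕ × Finset (Finset ℕ) ≃ ℕ) := nonempty_equiv_of_countable
  have hinj : Function.Injective fun S : Set (Set ℕ) => (q S).map e := by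
    intro S S' h
    have h1 : q S = q S' := by
      have h2 : ((q S).map e : Filter ℕ) = ((q S').map e : Filter ℕ) := congrArg _ h
      rw [Ultrafilter.coe_map, Ultrafilter.coe_map] at h2
      exact Ultrafilter.coe_injective (Filter.map_injective e.injective h2)
    ext A
    rw [← hq S A, ← hq S' A, h1]
  have h := Cardinal.mk_le_of_injective hinj
  rwa [Cardinal.mk_set, Cardinal.mk_set, Cardinal.mk_nat] at h

/-- The nonprincipal ultrafilters on the natural numbers. -/
def NP : Type := {q : Ultrafilter ℕ // ∀ n : ℕ, {n}ᶜ ∈ q}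

theorem card_NP : (2 : Cardinal.{0}) ^ ((2 : Cardinal.{0}) ^ ℵ₀) ≤ #NP := by
  have h1 : #(Ultrafilter ℕ) ≤ #NP + ℵ₀ := by
    have h2 : ∀ q : Ultrafilter ℕ, (∀ n : ℕ, {n}ᶜ ∈ q) ∨ ∃ n : ℕ, q = pure n := by
      intro q
      by_cases h : ∀ n : ℕ, {n}ᶜ ∈ q
      · exact Or.inl h
      · push Not at h
        obtain ⟨n, hn⟩ := h
        right
        refine ⟨n, ?_⟩
        have h3 : {n} ∈ q := by
          by_contra h4
          exact hn (Ultrafilter.compl_mem_iff_notMem.2 h4)
        exact Ultrafilter.ext fun s => by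
          rw [Ultrafilter.mem_pure]
          constructor
          · intro hs
            obtain ⟨y, hy1, hy2⟩ := q.nonempty_of_mem (inter_mem hs h3)
            rw [mem_singleton_iff] at hy2
            rwa [hy2] at hy1
          · intro hs
            exact mem_of_superset h3 (by rintro y rfl; exact hs)
    have h3 : Function.Surjective (fun x : NP ⊕ ℕ => (Sum.elim (fun q => q.1) (fun n => pure n) x :
        Ultrafilter ℕ)) := by
      intro q
      rcases h2 q with h | ⟨n, rfl⟩
      · exact ⟨Sum.inl ⟨q, h⟩, rfl⟩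
      · exact ⟨Sum.inr n, rfl⟩
    have h4 := Cardinal.mk_le_of_surjective h3
    rwa [Cardinal.mk_sum, Cardinal.lift_id, Cardinal.lift_id, Cardinal.mk_nat] at h4
  have h5 := card_ult.trans h1
  by_contra hlt
  push Not at hlt
  have h6 : ℵ₀ < (2 : Cardinal.{0}) ^ ((2 : Cardinal.{0}) ^ ℵ₀) :=
    (Cardinal.cantor ℵ₀).trans (Cardinal.cantor _)
  exact absurd (h5.trans_lt (Cardinal.add_lt_of_lt h6.le hlt h6)) (lt_irrefl _)

end Pool.Agent.Y986.GL
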