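import Pool.Agent.Results.MP_264cca_an.TrivialPart

/-!
The proofs are those of `Pool.Agent.Helper503.Gp.tv_main` and of the theorem of
`Pool.Agent.Results.MP_264cca_an.TrivialPart`, for every character with the three properties of
`Pool.Agent.Helper503.Gp.exists_m`.
-/

set_option autoImplicit false

open Metric Set Filter Topology Complex
open scoped ComplexConjugate

namespace Pool.Agent.Y986.GL
open Pool.Agent.Helper503
open Pool.Agent.Helper503.Gp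

theorem far_main (m : (ℂ → ℂ) → ℂ) (hm : IsChar m)
    (hmD : ∀ z ∈ Metric.ball (0:ℂ) 1, ∃ f ∈ HI, m f ≠ f z)
    (hmB : m (BF epq {q | q.2 ∈ En q.1}) = 0)
    (hmf : ∀ f ∈ HI, Gp.Small {q | q.2 ∈ En q.1 ∧ ‖f (cay (epq q))‖ < 1 / 3} → m f ≠ 0) :
    (∀ ψ, IsChar ψ → Gl m ψ → ψ = m) ∧
    ∀ φ, IsChar φ → (∃ ψ, IsChar ψ ∧ Gl φ ψ ∧ ψ ≠ φ) →
      ∃ S : Set ((ℂ → ℂ) → ℂ),
        (∀ ψ ∈ S, IsChar ψ ∧ InCl ψ {ψ | IsChar ψ ∧ Gl φ ψ}) ∧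
        (∀ χ, IsChar χ → InCl χ S → χ ∈ S) ∧
        (∀ f ∈ HI, ∀ ψ, IsChar ψ → Gl φ ψ → ∀ ε : ℝ, 0 < ε → ∃ χ ∈ S, ‖ψ f‖ < ‖χ f‖ + ε) ∧
        m ∉ S := by
  have hfar : ∀ φ : (ℂ → ℂ) → ℂ, IsChar φ →
      (∀ z ∈ Metric.ball (0:ℂ) 1, ¬ ∃ c : ℝ, c < 2 ∧ ∀ f ∈ HI,
          (∀ w ∈ Metric.ball (0:ℂ) 1, ‖f w‖ ≤ 1) → ‖φ f - f z‖ ≤ c) →
      (∃ ψ, IsChar ψ ∧ Gl φ ψ ∧ ψ ≠ φ) →
      ¬ InCl m {ψ | IsChar ψ ∧ Gl φ ψ} := by
    intro φ hφ hφD hnt hcl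
    have hne : ∀ a ∈ Metric.ball (0:ℂ) 1, φ (fun z => z - a) ≠ 0 :=
      fun a ha => char_point hφ ha (hφD a ha)
    obtain ⟨ι, w, hw, hA⟩ := propK hφ hne hnt
    obtain ⟨f, hf, hf0, hsm⟩ := vanish_fun hφ hne w hw hA
    have hmne : m f ≠ 0 := hmf f hf hsm
    obtain ⟨χ, ⟨hχ, hgχ⟩, hχf⟩ := hcl {f} ‖m f‖ (norm_pos_iff.2 hmne)
    have h1 := hχf f (Finset.mem_singleton_self f)
    rw [hf0 χ hχ hgχ, zero_sub, norm_neg] at h1
    exact lt_irrefl _ h1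
  have hmfar : ∀ z ∈ Metric.ball (0:ℂ) 1, ¬ ∃ c : ℝ, c < 2 ∧ ∀ f ∈ HI,
      (∀ w ∈ Metric.ball (0:ℂ) 1, ‖f w‖ ≤ 1) → ‖m f - f z‖ ≤ c := by
    intro z hz hc
    have h1 := tv_near_point hm hz hc
    obtain ⟨f, hf, hne⟩ := hmD _ (mem_ball_zero_iff.2 h1)
    exact hne (tv_id hm h1 f hf)
  refine ⟨fun ψ hψ hg => ?_, fun φ hφ hnt => ?_⟩
  · by_contra hne
    exact hfar m hm hmfar ⟨ψ, hψ, hg, hne⟩ fun s ε hε =>
      ⟨m, ⟨hm, tv_gl_refl m⟩, fun f _ => by rw [sub_self, norm_zero]; exact hε⟩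
  · by_cases hD : ∀ z ∈ Metric.ball (0:ℂ) 1, ¬ ∃ c : ℝ, c < 2 ∧ ∀ f ∈ HI,
      (∀ w ∈ Metric.ball (0:ℂ) 1, ‖f w‖ ≤ 1) → ‖φ f - f z‖ ≤ c
    · refine ⟨{χ | IsChar χ ∧ InCl χ {ψ | IsChar ψ ∧ Gl φ ψ}}, fun ψ h => h, ?_, ?_, ?_⟩
      · intro χ hχ hcl
        exact ⟨hχ, tv_incl_trans hcl fun ψ h => h.2⟩
      · intro f hf ψ hψ hg ε hε
        refine ⟨ψ, ⟨hψ, fun s ε' hε' => ⟨ψ, ⟨hψ, hg⟩, fun f _ => ?_⟩⟩, by linarith⟩
        rw [sub_self, norm_zero]; exact hε'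
      · rintro ⟨-, h⟩
        exact hfar φ hφ hD hnt h
    · push Not at hD
      obtain ⟨z, hz, hc⟩ := hD
      have h1 := tv_near_point hφ hz hc
      set b := φ (fun z => z) with hb
      have hbm : b ∈ Metric.ball (0:ℂ) 1 := mem_ball_zero_iff.2 h1
      have hφb : φ = evc b := tv_ext hφ (evc_char hbm) fun f hf => by
        rw [evc_apply hf]; exact tv_id hφ h1 f hf
      set B : ℂ → ℂ := BF epq {q | q.2 ∈ En q.1} with hBdef
      have hB : B ∈ HI := BF_mem bla_E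
      have hB1 : ∀ z ∈ Metric.ball (0:ℂ) 1, ‖B z‖ ≤ 1 := BF_le bla_E
      refine ⟨{χ | IsChar χ ∧ InCl χ {ψ | IsChar ψ ∧ Gl φ ψ} ∧ 1 / 2 ≤ ‖χ B‖},
        fun ψ h => ⟨h.1, h.2.1⟩, ?_, ?_, ?_⟩
      · intro χ hχ hcl
        refine ⟨hχ, tv_incl_trans hcl fun ψ h => h.2.1, ?_⟩
        by_contra hlt
        rw [not_le] at hlt
        obtain ⟨ψ, ⟨_, _, h2⟩, h3⟩ := hcl {B} (1 / 2 - ‖χ B‖) (by linarith)
        have h4 := h3 B (Finset.mem_singleton_self B)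
        have h5 : ‖ψ B‖ ≤ ‖ψ B - χ B‖ + ‖χ B‖ := by
          have := norm_add_le (ψ B - χ B) (χ B)
          rwa [sub_add_cancel] at this
        linarith
      · intro f hf ψ hψ _ ε hε
        -- first a point of the disc
        have h6 : ∃ z' ∈ Metric.ball (0:ℂ) 1, ‖ψ f‖ < ‖f z'‖ + ε / 2 := by
          by_contra hcon
          push Not at hcon
          have h7 := char_le hψ hf (C := ‖ψ f‖ - ε / 2) fun z hz => by linarith [hcon z hz]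
          linarith
        obtain ⟨z', hz', h8⟩ := h6
        obtain ⟨z'', hz'', h9, h10⟩ := norming hB hB1
          (fun g hg K hK => BF_isometry bla_E hg hK) hf hz' (ε / 2) (by linarith)
        refine ⟨evc z'', ⟨evc_char hz'', fun s ε' hε' => ⟨evc z'', ⟨evc_char hz'', ?_⟩,
          fun f _ => ?_⟩, ?_⟩, ?_⟩
        · rw [hφb]; exact tv_gl_points hbm hz''
        · rw [sub_self, norm_zero]; exact hε'
        · rw [evc_apply hB]; exact h9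
        · rw [evc_apply hf]; linarith
      · rintro ⟨-, -, h⟩
        rw [hmB, norm_zero] at h
        norm_num at h

open Pool.Agent.Results.MP_264cca_an.TrivialPart

theorem far_space (μ : (ℂ → ℂ) → ℂ) (hμ : IsChar μ)
    (htriv : ∀ ψ, IsChar ψ → Gl μ ψ → ψ = μ)
    (hmain : ∀ φ, IsChar φ → (∃ ψ, IsChar ψ ∧ Gl φ ψ ∧ ψ ≠ φ) →
      ∃ S : Set ((ℂ → ℂ) → ℂ),
        (∀ ψ ∈ S, IsChar ψ ∧ InCl ψ {ψ | IsChar ψ ∧ Gl φ ψ}) ∧
        (∀ χ, IsChar χ → InCl χ S → χ ∈ S) ∧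
        (∀ f ∈ HI, ∀ ψ, IsChar ψ → Gl φ ψ → ∀ ε : ℝ, 0 < ε → ∃ χ ∈ S, ‖ψ f‖ < ‖χ f‖ + ε) ∧
        μ ∉ S) :
    part (dn μ hμ) = {dn μ hμ} ∧ ∀ x : MaxSpace, part x ≠ {x} → dn μ hμ ∉ shilov (part x) := by
  refine ⟨?_, fun x hx hsh => ?_⟩
  · ext y
    rw [mem_singleton_iff]
    constructor
    · intro hy
      have h1 := (rho_lt_iff _ _).1 hy
      rw [up_dn] at h1
      apply up_inj
      rw [up_dn]
      exact htriv _ (up_char y) h1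
    · rintro rfl
      exact (rho_lt_iff _ _).2 (tv_gl_refl _)
  · have hxx : x ∈ part x := (rho_lt_iff _ _).2 (tv_gl_refl _)
    have hex : ∃ y ∈ part x, y ≠ x := by
      by_contra hcon
      push Not at hcon
      exact hx (Set.eq_singleton_iff_unique_mem.2 ⟨hxx, hcon⟩)
    obtain ⟨y, hy, hyx⟩ := hex
    obtain ⟨S, hS1, hS2, hS3, hS4⟩ := hmain (up x) (up_char x)
      ⟨up y, up_char y, (rho_lt_iff _ _).1 hy, fun h => hyx (up_inj h)⟩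
    have hmem := hsh {z | up z ∈ S} ⟨fun z hz => ?_, ?_, fun f z hz ε hε => ?_⟩
    · apply hS4
      have h2 : up (dn μ hμ) ∈ S := hmem
      rwa [up_dn] at h2
    · rw [closure_iff]
      intro s ε hε
      classical
      obtain ⟨ψ, ⟨hψ, hg⟩, h3⟩ := (hS1 _ hz).2 (s.image ex) ε hε
      refine ⟨dn ψ hψ, (rho_lt_iff _ _).2 (by rw [up_dn]; exact hg), fun f hf => ?_⟩
      have h4 := h3 (ex f) (Finset.mem_image_of_mem ex hf)
      rw [up_ex] at h4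
      exact h4
    · apply isClosed_of_closure_subset
      intro z hz
      rw [closure_iff] at hz
      refine hS2 _ (up_char z) fun s ε hε => ?_
      classical
      obtain ⟨w, hw, h3⟩ := hz (s.image resd) ε hε
      refine ⟨up w, hw, fun f hf => ?_⟩
      by_cases hfH : f ∈ HI
      · rw [up_apply _ hfH, up_apply _ hfH]
        have h4 := h3 (resd f) (Finset.mem_image_of_mem resd hf)
        rwa [resd_apply hfH] at h4
      · rw [(up_char w).2.2.2 f hfH, (up_char z).2.2.2 f hfH, sub_self, norm_zero]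
        exact hε
    · obtain ⟨χ, hχ, h5⟩ := hS3 (ex f) (ex_mem f) (up z) (up_char z) ((rho_lt_iff _ _).1 hz) ε hε
      refine ⟨dn χ (hS1 χ hχ).1, ?_, ?_⟩
      · change up (dn χ (hS1 χ hχ).1) ∈ S
        rw [up_dn]; exact hχ
      · rw [up_ex] at h5
        exact h5

end Pool.Agent.Y986.GL
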