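import Pool.Agent.Y986.GL.Plateau
import Pool.Agent.Y986.GL.Far
import Pool.Agent.Y986.GL.Card
import Pool.Agent.W744.GL.Stm
import Pool.Agent.W154.GL.ULCH

/-!
Characters along the ultrafilters that contain the sets with small complement and are, on sparse
levels, given by a nonprincipal ultrafilter on the natural numbers; they are pairwise different.
-/

set_option autoImplicit false

open Metric Set Filter Topology Complex
open scoped ComplexConjugate

namespace Pool.Agent.Y986.GL.Many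
open Pool.Agent.Helper503.Gp
open Pool.Agent.W744.GL (pt ulim S_ULCH)
open Pool.Agent.Y986.GL Pool.Agent.Y986.GL.Plateau

/-- the levels -/
def lev (j : ℕ) : ℕ := 8 ^ (j + 2)

theorem lev_bound (j : ℕ) (p : ℕ × ℕ) (hp : p ∈ En (lev j)) :
    a (j + 1) / ‖ep (lev j) p‖ ≤ 1 / 100 ∧ ‖ep (lev j) p‖ / a j ≤ 1 / 100 := by
  have he : 8 ≤ 8 ^ (j + 1) := by
    calc 8 = 8 ^ 1 := by norm_num
      _ ≤ 8 ^ (j + 1) := Nat.pow_le_pow_right (by norm_num) (by omega)
  obtain ⟨e, hee⟩ : ∃ e : ℕ, e = 8 ^ (j + 1) := ⟨_, rfl⟩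
  have hl : lev j = 8 * e := by
    unfold lev
    rw [hee]
    ring
  have ha : a j = (1 / 2) ^ (3 * e) := by
    unfold a
    rw [hee]
  have ha' : a (j + 1) = (1 / 2) ^ (16 * e) * (1 / 2) ^ (8 * e) := by
    unfold a
    rw [← pow_add]
    congr 1
    rw [hee]
    ring
  rw [← hee] at he
  have hp1 : p.1 ≤ lev j := by
    unfold En at hp
    rw [Finset.mem_filter, Finset.mem_product, Finset.mem_range] at hp
    omega
  have hpos := ep_im (lev j) p
  have him : (ep (lev j) p).im ≤ ‖ep (lev j) p‖ :=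
    (le_abs_self _).trans (Complex.abs_im_le_norm _)
  have hlow : (1 / 2 : ℝ) ^ (16 * e) ≤ (ep (lev j) p).im := by
    rw [ep_im_eq, ← one_div_pow]
    exact pow_le_pow_of_le_one (by norm_num) (by norm_num) (by omega)
  have hup := (ep_bound (lev j) p hp).1
  have q1 : (1 / 2 : ℝ) ^ (8 * e) ≤ (1 / 2) ^ 8 :=
    pow_le_pow_of_le_one (by norm_num) (by norm_num) (by omega)
  have q2 : (1 / 2 : ℝ) ^ (5 * e) ≤ (1 / 2) ^ 8 :=
    pow_le_pow_of_le_one (by norm_num) (by norm_num) (by omega)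
  constructor
  · rw [div_le_iff₀ (by linarith), ha']
    have : (0 : ℝ) < (1 / 2) ^ (16 * e) := by positivity
    nlinarith
  · rw [div_le_iff₀ (a_pos j), ha]
    have h3 : (2 : ℝ) / 2 ^ lev j = 2 * ((1 / 2) ^ (3 * e) * (1 / 2) ^ (5 * e)) := by
      rw [← pow_add, hl, show 3 * e + 5 * e = 8 * e by ring, one_div_pow]
      ring
    rw [h3] at hup
    have : (0 : ℝ) < (1 / 2) ^ (3 * e) := by positivity
    nlinarith

theorem np_ge (q : NP) (N : ℕ) : {j | N ≤ j} ∈ q.1 := by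
  induction N with
  | zero => exact Filter.univ_mem' fun j => Nat.zero_le j
  | succ N ih =>
    filter_upwards [ih, q.2 N] with j h1 h2
    have h3 : j ≠ N := h2
    have h4 : N ≤ j := h1
    show N + 1 ≤ j
    omega

/-- the filter -/
def Gf (q : NP) : Filter (ℕ × (ℕ × ℕ)) :=
  exists_m_F ⊓ Filter.comap Prod.fst (Filter.map lev (q.1 : Filter ℕ))

open Classical in
theorem mass_le_of (n : ℕ) {X Y : Set (ℕ × (ℕ × ℕ))} (h : ∀ p, (n, p) ∈ X → (n, p) ∈ Y) :
    mass n X ≤ mass n Y := by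
  unfold mass
  apply Finset.sum_le_sum_of_subset_of_nonneg
  · intro p hp
    rw [Finset.mem_filter] at hp ⊢
    exact ⟨hp.1, h p hp.2⟩
  · intro p _ _
    exact exists_m_nn n p

theorem gf_neBot (q : NP) : (Gf q).NeBot := by
  unfold Gf
  rw [Filter.inf_neBot_iff]
  intro Y hY t ht
  obtain ⟨s, hs, hst⟩ := Filter.mem_comap.1 ht
  rw [Filter.mem_map] at hs
  by_contra hcon
  rw [Set.not_nonempty_iff_eq_empty] at hcon
  have hY' : Pool.Agent.Helper503.Gp.Small Yᶜ := hY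
  have h1 : ∀ n ∈ s, mass n Set.univ ≤ mass n Yᶜ := by
    intro n hn
    refine mass_le_of n fun p _ hpY => ?_
    have h2 : (n, p) ∈ t := hst (show (n, p) ∈ Prod.fst ⁻¹' s from hn)
    have h3 : (n, p) ∈ Y ∩ t := ⟨hpY, h2⟩
    rw [hcon] at h3
    exact h3
  unfold Pool.Agent.Helper503.Gp.Small at hY'
  have h4 := hY'.eventually (gt_mem_nhds (show (0:ℝ) < 4 / 5 by norm_num))
  obtain ⟨N, hN⟩ := Filter.eventually_atTop.1 h4
  obtain ⟨j, hj1, hj2⟩ := q.1.nonempty_of_mem (inter_mem hs (np_ge q N))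
  have h5 : N ≤ lev j := by
    have : j + 2 < 8 ^ (j + 2) := Nat.lt_pow_self (by norm_num)
    have hj3 : N ≤ j := hj2
    unfold lev
    omega
  have h6 := hN _ h5
  have h7 := mass_lower (lev j)
  have h8 : (0:ℝ) < (lev j : ℝ) + 1 := by positivity
  rw [div_lt_iff₀ h8] at h6
  linarith [h1 _ hj1]

/-- the ultrafilter -/
noncomputable def Vf (q : NP) : Ultrafilter (ℕ × (ℕ × ℕ)) :=
  haveI := gf_neBot q
  Ultrafilter.of (Gf q)

theorem vf_le (q : NP) : (Vf q : Filter (ℕ × (ℕ × ℕ))) ≤ Gf q := by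
  have := gf_neBot q
  exact Ultrafilter.of_le (Gf q)

/-- the character -/
noncomputable def mm (V : Ultrafilter (ℕ × (ℕ × ℕ))) : (ℂ → ℂ) → ℂ :=
  ulim V (fun x => pt (epq x))

theorem mm_char (hU : S_ULCH) (V : Ultrafilter (ℕ × (ℕ × ℕ))) : IsChar (mm V) :=
  (hU.2 _ V _ (fun x => hU.1 _ (ep_im x.1 x.2))).1

theorem mm_spec (hU : S_ULCH) (V : Ultrafilter (ℕ × (ℕ × ℕ))) {f : ℂ → ℂ} (hf : f ∈ HI) :
    Tendsto (fun x => f (cay (epq x))) (V : Filter (ℕ × (ℕ × ℕ))) (𝓝 (mm V f)) := by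
  have h := (hU.2 _ V _ (fun x => hU.1 _ (ep_im x.1 x.2))).2 f
  refine h.congr fun x => ?_
  unfold pt
  rw [if_pos hf]
  rfl

theorem mm_uniq (hU : S_ULCH) (V : Ultrafilter (ℕ × (ℕ × ℕ))) {f : ℂ → ℂ} (hf : f ∈ HI) {b : ℂ}
    (h : Tendsto (fun x => f (cay (epq x))) (V : Filter (ℕ × (ℕ × ℕ))) (𝓝 b)) : mm V f = b :=
  tendsto_nhds_unique (mm_spec hU V hf) h

theorem mm_E {V : Ultrafilter (ℕ × (ℕ × ℕ))} (hV : (V : Filter (ℕ × (ℕ × ℕ))) ≤ exists_m_F) :
    ∀ᶠ q in (V : Filter (ℕ × (ℕ × ℕ))), q.2 ∈ En q.1 := by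
  refine hV (show Pool.Agent.Helper503.Gp.Small {q : ℕ × (ℕ × ℕ) | q.2 ∈ En q.1}ᶜ from ?_)
  apply exists_m_small_eventually
  filter_upwards with n p hp hc
  exact hc hp

theorem mm_epq {V : Ultrafilter (ℕ × (ℕ × ℕ))} (hV : (V : Filter (ℕ × (ℕ × ℕ))) ≤ exists_m_F) :
    Tendsto epq (V : Filter (ℕ × (ℕ × ℕ))) (𝓝 0) := by
  rw [Metric.tendsto_nhds]
  intro ε hε
  refine hV (show Pool.Agent.Helper503.Gp.Small {q : ℕ × (ℕ × ℕ) | dist (epq q) 0 < ε}ᶜ from ?_)
  apply exists_m_small_eventually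
  have h1 : Tendsto (fun n : ℕ => (2:ℝ) / 2 ^ n) atTop (𝓝 0) := by
    have h2 := (tendsto_pow_atTop_nhds_zero_of_lt_one (r := (1/2 : ℝ)) (by norm_num)
      (by norm_num)).const_mul 2
    rw [mul_zero] at h2
    refine h2.congr fun n => ?_
    rw [one_div, inv_pow]
    rfl
  filter_upwards [h1.eventually (gt_mem_nhds hε)] with n hn p hp hc
  apply hc
  show dist (ep n p) 0 < ε
  rw [dist_zero_right]
  exact lt_of_le_of_lt (ep_bound n p hp).1 hn

theorem mm_props (hU : S_ULCH) {V : Ultrafilter (ℕ × (ℕ × ℕ))}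
    (hV : (V : Filter (ℕ × (ℕ × ℕ))) ≤ exists_m_F) :
    (∀ z ∈ Metric.ball (0:ℂ) 1, ∃ f ∈ HI, mm V f ≠ f z) ∧
    mm V (BF epq {q | q.2 ∈ En q.1}) = 0 ∧
    ∀ f ∈ HI, Pool.Agent.Helper503.Gp.Small {q | q.2 ∈ En q.1 ∧ ‖f (cay (epq q))‖ < 1 / 3} →
      mm V f ≠ 0 := by
  refine ⟨?_, ?_, ?_⟩
  · intro z hz
    refine ⟨fun z => z, exists_m_id, ?_⟩
    have hc : Tendsto (fun q => cay (epq q)) (V : Filter (ℕ × (ℕ × ℕ))) (𝓝 (-1)) := by
      have h1 : ContinuousAt cay 0 := by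
        unfold cay
        apply ContinuousAt.div (by fun_prop) (by fun_prop)
        simp
      have h2 : cay 0 = -1 := by
        unfold cay
        rw [zero_sub, zero_add, neg_div, div_self Complex.I_ne_zero]
      rw [← h2]
      exact h1.tendsto.comp (mm_epq hV)
    rw [mm_uniq hU V exists_m_id hc]
    intro h
    rw [mem_ball_zero_iff] at hz
    have h2 : z = -1 := h.symm
    rw [h2] at hz
    simp at hz
  · apply mm_uniq hU V (BF_mem bla_E)
    refine (tendsto_congr' ?_).mpr (tendsto_const_nhds (x := (0:ℂ)))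
    filter_upwards [mm_E hV] with q hq
    exact BF_zero bla_E (i := q) hq
  · intro f hf hs h0
    have h1 := mm_spec hU V hf
    rw [h0] at h1
    have h2 : ∀ᶠ q in (V : Filter (ℕ × (ℕ × ℕ))),
        q ∈ {q : ℕ × (ℕ × ℕ) | q.2 ∈ En q.1 ∧ ‖f (cay (epq q))‖ < 1 / 3}ᶜ := by
      refine hV (show Pool.Agent.Helper503.Gp.Small
        {q : ℕ × (ℕ × ℕ) | q.2 ∈ En q.1 ∧ ‖f (cay (epq q))‖ < 1 / 3}ᶜᶜ from ?_)
      rw [compl_compl]
      exact hs
    have h3 : ∀ᶠ q in (V : Filter (ℕ × (ℕ × ℕ))), ‖f (cay (epq q))‖ < 1 / 3 := by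
      have h4 := h1.norm
      rw [norm_zero] at h4
      exact h4.eventually (gt_mem_nhds (by norm_num))
    obtain ⟨q, hq1, hq2, hq3⟩ := ((mm_E hV).and (h2.and h3)).exists
    exact hq2 ⟨hq1, hq3⟩

open Classical in
theorem mm_psi (hU : S_ULCH) (q : NP) (D E : Set ℕ) (c : ℂ) (hE : E ∈ q.1)
    (hc : ∀ j ∈ E, (if j ∈ D then 1 else 0 : ℂ) = c) : ‖mm (Vf q) (psi D) - c‖ ≤ 1 / 8 := by
  have hV := vf_le q
  have hF : (Vf q : Filter (ℕ × (ℕ × ℕ))) ≤ exists_m_F := hV.trans inf_le_left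
  have hE' : ∀ᶠ x in (Vf q : Filter (ℕ × (ℕ × ℕ))), x.1 ∈ lev '' E := by
    apply hV
    refine (inf_le_right : Gf q ≤ _) ?_
    refine Filter.mem_comap.2 ⟨lev '' E, ?_, fun x hx => hx⟩
    rw [Filter.mem_map]
    exact mem_of_superset hE (subset_preimage_image _ _)
  have h := ((mm_spec hU (Vf q) (psi_mem D)).sub_const c).norm
  refine le_of_tendsto h ?_
  filter_upwards [hE', mm_E hF] with x hx hx2
  obtain ⟨j, hj, hjx⟩ := hx
  obtain ⟨n, p⟩ := x
  simp only at hjx hx2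
  subst hjx
  have h1 := ep_im (lev j) p
  show ‖psi D (cay (ep (lev j) p)) - c‖ ≤ 1 / 8
  rw [psi_cay D h1, ← hc j hj]
  obtain ⟨b1, b2⟩ := lev_bound j p hx2
  exact level D h1 j b1 b2

theorem mm_inj (hU : S_ULCH) : Function.Injective fun q : NP => mm (Vf q) := by
  classical
  intro q q' h
  by_contra hne
  have h' : mm (Vf q) = mm (Vf q') := h
  have hex : ∃ D ∈ q.1, D ∉ q'.1 := by
    by_contra hcon
    push Not at hcon
    apply hne
    apply Subtype.ext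
    exact (Ultrafilter.eq_of_le (f := q'.1) (g := q.1) hcon).symm
  obtain ⟨D, hD, hD'⟩ := hex
  have hD2 : Dᶜ ∈ q'.1 := Ultrafilter.compl_mem_iff_notMem.2 hD'
  have h1 := mm_psi hU q D D 1 hD (fun j hj => if_pos hj)
  have h2 := mm_psi hU q' D Dᶜ 0 hD2 (fun j hj => if_neg hj)
  rw [h'] at h1
  rw [sub_zero] at h2
  have h3 : ‖(1 : ℂ)‖ ≤ ‖mm (Vf q') (psi D)‖ + ‖mm (Vf q') (psi D) - 1‖ := by
    have := norm_sub_le (mm (Vf q') (psi D)) (mm (Vf q') (psi D) - 1)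
    rwa [sub_sub_cancel] at this
  rw [norm_one] at h3
  linarith

open Pool.Agent.Results.MP_264cca_an.TrivialPart

/-- the points -/
noncomputable def point (hU : S_ULCH) (q : NP) : MaxSpace := dn (mm (Vf q)) (mm_char hU (Vf q))

theorem point_inj (hU : S_ULCH) : Function.Injective (point hU) := by
  intro q q' h
  apply mm_inj hU
  have h1 := congrArg up h
  unfold point at h1
  rwa [up_dn, up_dn] at h1

theorem point_far (hU : S_ULCH) (q : NP) : part (point hU q) = {point hU q} ∧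
    ∀ x : MaxSpace, part x ≠ {x} → point hU q ∉ shilov (part x) := by
  have hV : (Vf q : Filter (ℕ × (ℕ × ℕ))) ≤ exists_m_F := (vf_le q).trans inf_le_left
  obtain ⟨h1, h2, h3⟩ := mm_props hU hV
  obtain ⟨h4, h5⟩ := far_main _ (mm_char hU (Vf q)) h1 h2 h3
  exact far_space _ _ h4 h5

open Cardinal

theorem card_Hinf : #Hinf ≤ 𝔠 := by
  have hne : Nonempty (ball (0 : ℂ) 1) := ⟨⟨0, by simp⟩⟩
  have hcont : ∀ f : Hinf, Continuous (f : ball (0 : ℂ) 1 → ℂ) := by
    intro f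
    obtain ⟨⟨F, hF, hfF⟩, -⟩ := f.2
    have h1 : (f : ball (0 : ℂ) 1 → ℂ) = (ball (0 : ℂ) 1).domRestrict F := by
      funext z
      exact hfF z
    rw [h1]
    exact continuousOn_iff_continuous_domRestrict.1 hF.continuousOn
  have hinj : Function.Injective fun (f : Hinf) (n : ℕ) =>
      (f : ball (0 : ℂ) 1 → ℂ) (TopologicalSpace.denseSeq (ball (0 : ℂ) 1) n) := by
    intro f g h
    apply Subtype.ext
    refine DenseRange.equalizer (TopologicalSpace.denseRange_denseSeq (ball (0 : ℂ) 1))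
      (hcont f) (hcont g) ?_
    funext n
    exact congrFun h n
  have h1 := Cardinal.mk_le_of_injective hinj
  have h2 : #(ℕ → ℂ) = 𝔠 := by
    rw [← Cardinal.power_def, Cardinal.mk_complex, Cardinal.mk_nat,
      Cardinal.continuum_power_aleph0]
  rwa [h2] at h1

theorem card_MaxSpace_le : #MaxSpace ≤ 2 ^ (2 ^ ℵ₀ : Cardinal.{0}) := by
  have h1 : #MaxSpace ≤ #(Hinf → ℂ) :=
    Cardinal.mk_le_of_injective (f := fun (m : MaxSpace) (f : Hinf) => m f)
      (fun a b h => AlgHom.ext fun f => congrFun h f)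
  refine h1.trans ?_
  rw [← Cardinal.power_def, Cardinal.mk_complex]
  refine (Cardinal.power_le_power_left Cardinal.continuum_ne_zero card_Hinf).trans ?_
  rw [Cardinal.power_self_eq Cardinal.aleph0_le_continuum, Cardinal.two_power_aleph0]


end Pool.Agent.Y986.GL.Many
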