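import Pool.Agent.Helper503.Gp.Cay
import Pool.Agent.Helper503.Gp.Defs

/-!
Bounded analytic functions with values near one on a given set of sparse scales and near zero on
the other scales.
-/

set_option autoImplicit false

open Metric Set Filter Topology Complex
open scoped ComplexConjugate

namespace Pool.Agent.Y986.GL.Plateau
open Pool.Agent.Helper503.Gp

/-- the thresholds -/
noncomputable def a (j : ℕ) : ℝ := (1 / 2) ^ (3 * 8 ^ (j + 1))

theorem a_pos (j : ℕ) : 0 < a j := by unfold a; positivity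

theorem a_anti (j : ℕ) : a (j + 1) ≤ a j := by
  unfold a
  apply pow_le_pow_of_le_one (by norm_num) (by norm_num)
  have : 8 ^ (j + 1) ≤ 8 ^ (j + 1 + 1) := Nat.pow_le_pow_right (by norm_num) (by omega)
  omega

theorem a_le (j : ℕ) : a j ≤ (1 / 2) ^ j := by
  unfold a
  apply pow_le_pow_of_le_one (by norm_num) (by norm_num)
  have h1 : j + 1 < 8 ^ (j + 1) := Nat.lt_pow_self (by norm_num)
  omega

theorem a_tendsto : Tendsto a atTop (𝓝 0) :=
  squeeze_zero (fun j => (a_pos j).le) a_le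
    (tendsto_pow_atTop_nhds_zero_of_lt_one (by norm_num) (by norm_num))

theorem a_summable : Summable a :=
  Summable.of_nonneg_of_le (fun j => (a_pos j).le) a_le
    (summable_geometric_of_lt_one (by norm_num) (by norm_num))

/-- real model -/
noncomputable def G (j : ℕ) (r : ℝ) : ℝ := r / (r + a j)

theorem G_mono {r : ℝ} (hr : 0 < r) (j : ℕ) : G j r ≤ G (j + 1) r := by
  unfold G
  have := a_pos (j + 1)
  exact div_le_div_of_nonneg_left hr.le (by linarith) (by linarith [a_anti j])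

theorem G_tendsto {r : ℝ} (hr : 0 < r) : Tendsto (fun j => G j r) atTop (𝓝 1) := by
  have h : Tendsto (fun j => r / (r + a j)) atTop (𝓝 (r / (r + 0))) :=
    tendsto_const_nhds.div (tendsto_const_nhds.add a_tendsto) (by simpa using hr.ne')
  rw [add_zero, div_self hr.ne'] at h
  exact h

theorem G_hasSum {r : ℝ} (hr : 0 < r) : HasSum (fun j => G (j + 1) r - G j r) (1 - G 0 r) := by
  rw [hasSum_iff_tendsto_nat_of_nonneg (fun j => sub_nonneg.2 (G_mono hr j))]
  have h : (fun n => ∑ i ∈ Finset.range n, (G (i + 1) r - G i r)) = fun n => G n r - G 0 r := by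
    funext n
    exact Finset.sum_range_sub (fun i => G i r) n
  rw [h]
  exact (G_tendsto hr).sub_const _

/-- one step -/
noncomputable def g (j : ℕ) (w : ℂ) : ℂ := w / (w + I * a j)

theorem norm_add_ge {w : ℂ} (hw : 0 < w.im) {t : ℝ} (ht : 0 ≤ t) :
    ‖w‖ + t ≤ 2 * ‖w + I * t‖ ∧ ‖w‖ ≤ ‖w + I * t‖ ∧ t ≤ ‖w + I * t‖ ∧
      (‖w‖ + t) ^ 2 ≤ 2 * ‖w + I * t‖ ^ 2 := by
  have h1 : ‖w + I * t‖ ^ 2 = w.re ^ 2 + (w.im + t) ^ 2 := by
    rw [← Complex.normSq_eq_norm_sq, Complex.normSq_apply]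
    simp
    ring
  have h2 : ‖w‖ ^ 2 = w.re ^ 2 + w.im ^ 2 := by
    rw [← Complex.normSq_eq_norm_sq, Complex.normSq_apply]
    ring
  have h3 : ‖w‖ ^ 2 + t ^ 2 ≤ ‖w + I * t‖ ^ 2 := by
    rw [h1, h2]
    nlinarith [mul_nonneg hw.le ht]
  have n1 := norm_nonneg w
  have n2 := norm_nonneg (w + I * t)
  refine ⟨?_, ?_, ?_, ?_⟩
  · have : ‖w‖ ≤ ‖w + I * t‖ := abs_le_of_sq_le_sq' (by nlinarith [sq_nonneg t]) n2 |>.2
    have h5 : t ≤ ‖w + I * t‖ := abs_le_of_sq_le_sq' (by nlinarith [sq_nonneg ‖w‖]) n2 |>.2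
    linarith
  · exact abs_le_of_sq_le_sq' (by nlinarith [sq_nonneg t]) n2 |>.2
  · exact abs_le_of_sq_le_sq' (by nlinarith [sq_nonneg ‖w‖]) n2 |>.2
  · nlinarith [sq_nonneg (‖w‖ - t)]

theorem ne_zero {w : ℂ} (hw : 0 < w.im) (j : ℕ) : w + I * a j ≠ 0 := by
  intro h
  have h1 := congrArg Complex.im h
  simp at h1
  linarith [a_pos j]

theorem step_eq {w : ℂ} (hw : 0 < w.im) (j : ℕ) :
    g (j + 1) w - g j w = I * w * ((a j : ℂ) - a (j + 1)) / ((w + I * a (j + 1)) * (w + I * a j)) := by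
  unfold g
  rw [div_sub_div _ _ (ne_zero hw _) (ne_zero hw _)]
  congr 1
  ring

theorem step_le {w : ℂ} (hw : 0 < w.im) (j : ℕ) :
    ‖g (j + 1) w - g j w‖ ≤ 2 * (G (j + 1) ‖w‖ - G j ‖w‖) := by
  have hw0 : 0 < ‖w‖ := norm_pos_iff.2 (fun h => by rw [h] at hw; simp at hw)
  have h1 := (norm_add_ge hw (a_pos (j + 1)).le).2.2.2
  have h2 := (norm_add_ge hw (a_pos j).le).2.2.2
  have ha := a_anti j
  have p1 := a_pos j
  have p2 := a_pos (j + 1)
  rw [step_eq hw, norm_div, norm_mul, norm_mul, norm_mul, Complex.norm_I, one_mul]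
  have e1 : ‖(a j : ℂ) - a (j + 1)‖ = a j - a (j + 1) := by
    rw [← Complex.ofReal_sub, Complex.norm_real, Real.norm_of_nonneg (by linarith)]
  rw [e1]
  have e2 : 2 * (G (j + 1) ‖w‖ - G j ‖w‖) =
      2 * (‖w‖ * (a j - a (j + 1))) / ((‖w‖ + a (j + 1)) * (‖w‖ + a j)) := by
    unfold G
    rw [div_sub_div _ _ (by positivity) (by positivity), ← mul_div_assoc]
    congr 1
    ring
  rw [e2]
  have k1 : 0 < ‖w + I * a (j + 1)‖ := norm_pos_iff.2 (ne_zero hw _)
  have k2 : 0 < ‖w + I * a j‖ := norm_pos_iff.2 (ne_zero hw _)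
  rw [div_le_div_iff₀ (by positivity) (by positivity)]
  have key : (‖w‖ + a (j + 1)) * (‖w‖ + a j) ≤ 2 * (‖w + I * a (j + 1)‖ * ‖w + I * a j‖) := by
    have q1 : ((‖w‖ + a (j + 1)) * (‖w‖ + a j)) ^ 2 ≤
        (2 * (‖w + I * a (j + 1)‖ * ‖w + I * a j‖)) ^ 2 := by
      have := mul_le_mul h1 h2 (by positivity) (by positivity)
      nlinarith [this]
    exact abs_le_of_sq_le_sq' q1 (by positivity) |>.2
  have q2 : 0 ≤ ‖w‖ * (a j - a (j + 1)) := mul_nonneg hw0.le (by linarith)
  nlinarith [mul_le_mul_of_nonneg_left key q2]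

theorem norm_pos' {w : ℂ} (hw : 0 < w.im) : 0 < ‖w‖ :=
  norm_pos_iff.2 (fun h => by rw [h] at hw; simp at hw)

theorem G_nonneg {r : ℝ} (hr : 0 < r) (j : ℕ) : 0 ≤ G j r := by
  unfold G
  have := a_pos j
  positivity

theorem one_sub_G {r : ℝ} (hr : 0 < r) (j : ℕ) : 1 - G j r ≤ a j / r ∧ 0 ≤ 1 - G j r := by
  unfold G
  have h := a_pos j
  have e : 1 - r / (r + a j) = a j / (r + a j) := by
    field_simp
    ring
  rw [e]
  exact ⟨div_le_div_of_nonneg_left h.le hr (by linarith), by positivity⟩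

theorem G_le {r : ℝ} (hr : 0 < r) (j : ℕ) : G j r ≤ r / a j := by
  unfold G
  have h := a_pos j
  exact div_le_div_of_nonneg_left hr.le h (by linarith)

open Classical in
/-- the function: near one on the scales in `D`, near zero on the others -/
noncomputable def F (D : Set ℕ) (w : ℂ) : ℂ := ∑' j, if j ∈ D then g (j + 1) w - g j w else 0

open Classical in
theorem term_le (D : Set ℕ) {w : ℂ} (hw : 0 < w.im) (j : ℕ) :
    ‖(if j ∈ D then g (j + 1) w - g j w else 0 : ℂ)‖ ≤ 2 * (G (j + 1) ‖w‖ - G j ‖w‖) := by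
  split_ifs
  · exact step_le hw j
  · rw [norm_zero]
    linarith [G_mono (norm_pos' hw) j]

theorem F_le (D : Set ℕ) {w : ℂ} (hw : 0 < w.im) : ‖F D w‖ ≤ 2 := by
  classical
  have h := tsum_of_norm_bounded ((G_hasSum (norm_pos' hw)).mul_left 2) (term_le D hw)
  refine h.trans ?_
  linarith [G_nonneg (norm_pos' hw) 0]

theorem g_diff (j : ℕ) : DifferentiableOn ℂ (g j) {w | 0 < w.im} := by
  intro w hw
  have h := ne_zero hw j
  have h2 : DifferentiableAt ℂ (fun w : ℂ => w / (w + I * a j)) w :=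
    DifferentiableAt.div (by fun_prop) (by fun_prop) h
  exact h2.differentiableWithinAt

theorem F_diff (D : Set ℕ) : DifferentiableOn ℂ (F D) {w | 0 < w.im} := by
  classical
  intro w₀ hw₀
  have hw₀' : 0 < w₀.im := hw₀
  have hU : IsOpen {w : ℂ | w₀.im / 2 < w.im} := isOpen_lt continuous_const Complex.continuous_im
  have hsub : {w : ℂ | w₀.im / 2 < w.im} ⊆ {w | 0 < w.im} := fun w hw => by
    have : w₀.im / 2 < w.im := hw
    show 0 < w.im
    linarith
  have h := differentiableOn_tsum_of_summable_norm (U := {w : ℂ | w₀.im / 2 < w.im})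
    (F := fun (j : ℕ) (w : ℂ) => if j ∈ D then g (j + 1) w - g j w else 0)
    (u := fun j => (4 / w₀.im) * a j) (a_summable.mul_left _) (by
      intro j
      by_cases hj : j ∈ D
      · simp only [hj, if_true]
        exact ((g_diff (j + 1)).sub (g_diff j)).mono hsub
      · simp only [hj, if_false]
        exact differentiableOn_const _) hU (by
      intro j w hw
      have hw' : w₀.im / 2 < w.im := hw
      have hw0 : 0 < w.im := by linarith
      have hn := norm_pos' hw0
      refine (term_le D hw0 j).trans ?_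
      have h1 := (one_sub_G hn j).1
      have h2 := (one_sub_G hn (j + 1)).2
      have h3 : a j / ‖w‖ ≤ a j / (w₀.im / 2) :=
        div_le_div_of_nonneg_left (a_pos j).le (by positivity)
          (hw'.le.trans ((le_abs_self _).trans (Complex.abs_im_le_norm w)))
      have h4 : a j / (w₀.im / 2) * 2 = 4 / w₀.im * a j := by
        field_simp
        ring
      linarith)
  exact (h.differentiableAt (hU.mem_nhds (by
    show w₀.im / 2 < w₀.im
    linarith))).differentiableWithinAt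

open Classical in
theorem level (D : Set ℕ) {w : ℂ} (hw : 0 < w.im) (k : ℕ) (h1 : a (k + 1) / ‖w‖ ≤ 1 / 100)
    (h2 : ‖w‖ / a k ≤ 1 / 100) : ‖F D w - (if k ∈ D then 1 else 0)‖ ≤ 1 / 8 := by
  have hn := norm_pos' hw
  have hs : Summable fun j => (if j ∈ D then g (j + 1) w - g j w else 0 : ℂ) :=
    Summable.of_norm_bounded ((G_hasSum hn).mul_left 2).summable (term_le D hw)
  have e1 : F D w = (if k ∈ D then g (k + 1) w - g k w else 0) +
      ∑' j, if j = k then 0 else (if j ∈ D then g (j + 1) w - g j w else 0 : ℂ) :=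
    hs.tsum_eq_add_tsum_ite k
  have e2 : ‖∑' j, if j = k then 0 else (if j ∈ D then g (j + 1) w - g j w else 0 : ℂ)‖ ≤
      2 * (1 - G 0 ‖w‖) - 2 * (G (k + 1) ‖w‖ - G k ‖w‖) := by
    refine tsum_of_norm_bounded (hasSum_ite_sub_hasSum ((G_hasSum hn).mul_left 2) k) fun j => ?_
    by_cases hj : j = k
    · simp [hj]
    · simp only [hj, if_false]
      exact term_le D hw j
  have e3 : ‖(if k ∈ D then g (k + 1) w - g k w else 0 : ℂ) - (if k ∈ D then 1 else 0)‖ ≤
      1 / 50 := by
    by_cases hk : k ∈ D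
    · simp only [hk, if_true]
      have h3 : ‖g (k + 1) w - 1‖ ≤ a (k + 1) / ‖w‖ := by
        have e : g (k + 1) w - 1 = -(I * a (k + 1)) / (w + I * a (k + 1)) := by
          unfold g
          rw [div_sub_one (ne_zero hw _)]
          congr 1
          ring
        rw [e, norm_div, norm_neg, norm_mul, Complex.norm_I, one_mul, Complex.norm_real,
          Real.norm_of_nonneg (a_pos _).le]
        exact div_le_div_of_nonneg_left (a_pos _).le hn (norm_add_ge hw (a_pos _).le).2.1
      have h4 : ‖g k w‖ ≤ ‖w‖ / a k := by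
        unfold g
        rw [norm_div]
        exact div_le_div_of_nonneg_left hn.le (a_pos _) (norm_add_ge hw (a_pos _).le).2.2.1
      calc ‖g (k + 1) w - g k w - 1‖ = ‖(g (k + 1) w - 1) - g k w‖ := by ring_nf
        _ ≤ ‖g (k + 1) w - 1‖ + ‖g k w‖ := norm_sub_le _ _
        _ ≤ 1 / 50 := by linarith
    · simp only [hk, if_false, sub_zero, norm_zero]
      norm_num
  have h5 := (one_sub_G hn (k + 1)).1
  have h6 := G_le hn k
  have h7 := G_nonneg hn 0
  calc ‖F D w - (if k ∈ D then 1 else 0)‖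
      = ‖((if k ∈ D then g (k + 1) w - g k w else 0 : ℂ) - (if k ∈ D then 1 else 0)) +
        ∑' j, if j = k then 0 else (if j ∈ D then g (j + 1) w - g j w else 0 : ℂ)‖ := by
        rw [e1]
        congr 1
        ring
    _ ≤ _ := norm_add_le _ _
    _ ≤ 1 / 8 := by linarith

/-- the same function on the disc -/
noncomputable def psi (D : Set ℕ) (z : ℂ) : ℂ := F D (I * (1 + z) / (1 - z))

theorem inv_cay {w : ℂ} (hw : 0 < w.im) : I * (1 + cay w) / (1 - cay w) = w := by
  have h1 : w + I ≠ 0 := by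
    intro h
    have := congrArg Complex.im h
    simp at this
    linarith
  unfold cay
  have h3 : 1 + (w - I) / (w + I) = 2 * w / (w + I) := by field_simp; ring
  have h4 : 1 - (w - I) / (w + I) = 2 * I / (w + I) := by field_simp; ring
  rw [h3, h4]
  have hI : (I : ℂ) ≠ 0 := Complex.I_ne_zero
  field_simp

theorem psi_cay (D : Set ℕ) {w : ℂ} (hw : 0 < w.im) : psi D (cay w) = F D w := by
  unfold psi
  rw [inv_cay hw]

theorem psi_mem (D : Set ℕ) : psi D ∈ HI := by
  have hψ : ∀ z ∈ ball (0 : ℂ) 1, 0 < (I * (1 + z) / (1 - z)).im := by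
    intro z hz
    obtain ⟨w, hw, rfl⟩ := cay_surj hz
    rw [inv_cay hw]
    exact hw
  refine ⟨?_, 2, fun z hz => F_le D (hψ z hz)⟩
  apply (F_diff D).comp (t := {w | 0 < w.im}) (f := fun z : ℂ => I * (1 + z) / (1 - z))
  · apply DifferentiableOn.div
    · fun_prop
    · fun_prop
    · intro z hz h
      rw [mem_ball_zero_iff] at hz
      have : z = 1 := by linear_combination -h
      rw [this] at hz
      simp at hz
  · intro z hz
    exact hψ z hz

end Pool.Agent.Y986.GL.Plateau
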